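import Pool.Agent.Helper79_MT4.Stmt

/-! CUR: polynomial curves of endomorphisms (squad MT4). -/

set_option autoImplicit false

namespace Pool.Agent.MT4.H18

open Module LinearMap Polynomial

universe u v

section

variable {K : Type u} {V : Type v} [Field K] [AddCommGroup V] [Module K V]

theorem curve_mono (k : ℕ) (a : End K V) : IsCurve (fun t : K => t ^ k • a) :=
  Submodule.subset_span ⟨k, a, rfl⟩

theorem curve_add {p q : K → End K V} (hp : IsCurve p) (hq : IsCurve q) :
    IsCurve (fun s => p s + q s) := Submodule.add_mem _ hp hq

theorem curve_sub {p q : K → End K V} (hp : IsCurve p) (hq : IsCurve q) :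
    IsCurve (fun s => p s - q s) := Submodule.sub_mem _ hp hq

theorem curve_smul (c : K) {p : K → End K V} (hp : IsCurve p) : IsCurve (fun s => c • p s) :=
  Submodule.smul_mem _ c hp

theorem curve_zero : IsCurve (fun _ : K => (0 : End K V)) := Submodule.zero_mem _

theorem curve_induction {Q : (K → End K V) → Prop} (h0 : Q fun _ => 0)
    (hadd : ∀ p q, Q p → Q q → Q fun s => p s + q s)
    (hsmul : ∀ (c : K) p, Q p → Q fun s => c • p s)
    (hmono : ∀ (k : ℕ) (a : End K V), Q fun t => t ^ k • a) {p : K → End K V} (hp : IsCurve p) :
    Q p := by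
  refine Submodule.span_induction (p := fun p _ => Q p) ?_ ?_ ?_ ?_ hp
  · rintro _ ⟨k, a, rfl⟩
    exact hmono k a
  · exact h0
  · intro x y _ _ hx hy
    exact hadd x y hx hy
  · intro c x _ hx
    exact hsmul c x hx

theorem curve_mul {p q : K → End K V} (hp : IsCurve p) (hq : IsCurve q) :
    IsCurve (fun s => p s * q s) := by
  refine curve_induction (Q := fun p => IsCurve fun s => p s * q s) ?_ ?_ ?_ ?_ hp
  · simp only [zero_mul]
    exact curve_zero
  · intro a b ha hb
    simp only [add_mul]
    exact curve_add ha hb
  · intro c a ha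
    simp only [smul_mul_assoc]
    exact curve_smul c ha
  · intro k a
    refine curve_induction (Q := fun q => IsCurve fun s => (s ^ k • a) * q s) ?_ ?_ ?_ ?_ hq
    · simp only [mul_zero]
      exact curve_zero
    · intro x y hx hy
      simp only [mul_add]
      exact curve_add hx hy
    · intro c x hx
      simp only [mul_smul_comm] at hx ⊢
      exact curve_smul c hx
    · intro l b
      have : (fun s : K => (s ^ k • a) * (s ^ l • b)) = fun s => s ^ (k + l) • (a * b) := by
        funext s
        rw [smul_mul_smul_comm, pow_add]
      rw [this]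
      exact curve_mono _ _

theorem curve_eval (P : K[X]) (a : End K V) : IsCurve (fun s => P.eval s • a) := by
  induction P using Polynomial.induction_on' with
  | add p q hp hq =>
    simp only [eval_add, add_smul]
    exact curve_add hp hq
  | monomial n c =>
    have : (fun s : K => (monomial n c).eval s • a) = fun s => c • (s ^ n • a) := by
      funext s
      rw [eval_monomial, mul_smul]
    rw [this]
    exact curve_smul c (curve_mono n a)

theorem cur : CurStmt.{u, v} := by
  intro K V _ _ _
  refine ⟨?_, fun p q => curve_add, fun p q => curve_sub, fun p q => curve_mul, ?_, ?_, ?_⟩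
  · intro a
    have := curve_mono (K := K) 0 a
    simpa using this
  · intro P p hp
    have h1 := curve_mul (curve_eval P (1 : End K V)) hp
    simpa only [smul_mul_assoc, one_mul] using h1
  · intro P p hp
    refine curve_induction (Q := fun p => IsCurve fun s => p (P.eval s)) ?_ ?_ ?_ ?_ hp
    · exact curve_zero
    · intro a b ha hb
      exact curve_add ha hb
    · intro c a ha
      exact curve_smul c ha
    · intro k a
      have h1 := curve_eval (P ^ k) a
      simpa only [eval_pow] using h1
  · intro F p hp
    refine curve_induction (Q := fun p => ∃ P : K[X], ∀ s, F (p s) = P.eval s) ?_ ?_ ?_ ?_ hp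
    · exact ⟨0, fun s => by rw [map_zero, eval_zero]⟩
    · rintro a b ⟨P, hP⟩ ⟨Q, hQ⟩
      exact ⟨P + Q, fun s => by rw [map_add, hP, hQ, eval_add]⟩
    · rintro c a ⟨P, hP⟩
      exact ⟨C c * P, fun s => by rw [map_smul, hP, eval_mul, eval_C, smul_eq_mul]⟩
    · intro k a
      exact ⟨C (F a) * X ^ k, fun s => by
        rw [map_smul, eval_mul, eval_C, eval_pow, eval_X, smul_eq_mul, mul_comm]⟩

end

end Pool.Agent.MT4.H18
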