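import Pool.Agent.Helper79_MT4.Stmt

/-! GRP: the group generated by the elements of square zero and the cocharacters (squad MT4). -/

set_option autoImplicit false

namespace Pool.Agent.MT4.H18

open Module LinearMap

universe u v w

section

variable {K : Type u} {V : Type v} [Field K] [CharZero K] [AddCommGroup V] [Module K V]
  {ι : Type w} {ψ : V →ₗ[K] V →ₗ[K] K} {e : ι → End K V} {σ : ι → ι}
  {g : Submodule K (End K V)}

theorem gp_mul {a b : End K V} (h : Gp e g a b) : ∀ c d : End K V, Gp e g c d →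
    Gp e g (a * c) (d * b) := by
  induction h with
  | one =>
    intro c d hc
    rw [one_mul, mul_one]
    exact hc
  | uni M hM t a b _ ih =>
    intro c d hc
    have := Gp.uni (e := e) (g := g) M hM t _ _ (ih c d hc)
    rwa [← mul_assoc, mul_assoc d b] at this
  | tor h hh t ht a b _ ih =>
    intro c d hc
    have := Gp.tor (e := e) (g := g) h hh t ht _ _ (ih c d hc)
    rwa [← mul_assoc, mul_assoc d b] at this

theorem gp_inv {a b : End K V} (h : Gp e g a b) : Gp e g b a := by
  induction h with
  | one => exact Gp.one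
  | uni M hM t a b _ ih =>
    have h1 := Gp.uni (e := e) (g := g) M hM (-t) 1 1 Gp.one
    rw [mul_one, one_mul, neg_smul, sub_neg_eq_add, ← sub_eq_add_neg] at h1
    exact gp_mul ih _ _ h1
  | tor h hh t ht a b _ ih =>
    have h1 := Gp.tor (e := e) (g := g) h hh t⁻¹ (inv_ne_zero ht) 1 1 Gp.one
    rw [mul_one, one_mul, inv_inv] at h1
    exact gp_mul ih _ _ h1

theorem tor_inv {h : End K V} (hh : h * h = (1 / 4 : K) • 1) {t : K} (ht : t ≠ 0) :
    (((1 / 2 : K) • 1 + h) + t • ((1 / 2 : K) • 1 - h)) *
      (((1 / 2 : K) • 1 + h) + t⁻¹ • ((1 / 2 : K) • 1 - h)) = 1 := by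
  simp only [mul_add, add_mul, mul_sub, sub_mul, smul_mul_assoc, mul_smul_comm, one_mul, mul_one,
    hh, smul_add, smul_sub]
  match_scalars <;> field_simp <;> ring

theorem gp_inverse {a b : End K V} (h : Gp e g a b) : a * b = 1 := by
  induction h with
  | one => exact one_mul 1
  | uni M hM t a b _ ih =>
    have hM2 : M * M = 0 := hM.2.1
    have e1 : (1 + t • M) * a * (b * (1 - t • M)) = (1 + t • M) * (a * b) * (1 - t • M) := by
      simp only [mul_assoc]
    rw [e1, ih, mul_one]
    simp only [mul_add, add_mul, mul_sub, sub_mul, smul_mul_assoc, mul_smul_comm, one_mul, mul_one,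
      hM2, smul_zero]
    module
  | tor h hh t ht a b _ ih =>
    have e1 : ∀ A B : End K V, A * a * (b * B) = A * (a * b) * B := fun A B => by
      simp only [mul_assoc]
    rw [e1, ih, mul_one]
    exact tor_inv hh.2.1 ht

theorem gp_comm (hB : Blk4 ψ e σ g) {a b : End K V} (h : Gp e g a b) (i : ι) :
    a * e i = e i * a := by
  induction h with
  | one => rw [one_mul, mul_one]
  | uni M hM t a b _ ih =>
    have h1 := hB.comm M hM.1 i
    rw [mul_assoc, ih, ← mul_assoc, ← mul_assoc, add_mul, one_mul, smul_mul_assoc, h1, mul_add,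
      mul_one, mul_smul_comm]
  | tor h hh t ht a b _ ih =>
    have h1 := hB.comm h hh.1 i
    rw [mul_assoc, ih, ← mul_assoc, ← mul_assoc]
    congr 1
    simp only [mul_add, add_mul, mul_sub, sub_mul, smul_mul_assoc, mul_smul_comm, one_mul, mul_one,
      h1]

theorem gp_lie (hB : Blk4 ψ e σ g) {a b : End K V} (h : Gp e g a b) :
    ∀ X ∈ g, a * X * b ∈ g := by
  induction h with
  | one =>
    intro X hX
    rwa [one_mul, mul_one]
  | uni M hM t a b _ ih =>
    intro X hX
    have hY := ih X hX
    set Y := a * X * b with hYd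
    have e1 : (1 + t • M) * a * X * (b * (1 - t • M)) = (1 + t • M) * Y * (1 - t • M) := by
      rw [hYd]
      simp only [mul_assoc]
    have hM2 : M * M = 0 := hM.2.1
    have hD1 := hB.br M hM.1 Y hY
    have hD2 := hB.br M hM.1 _ hD1
    have e2 : (1 + t • M) * Y * (1 - t • M) =
        Y + t • (M * Y - Y * M) +
          (t ^ 2 / 2) • (M * (M * Y - Y * M) - (M * Y - Y * M) * M) := by
      have h3 : M * (M * Y) = 0 := by rw [← mul_assoc, hM2, zero_mul]
      have h4 : Y * M * M = 0 := by rw [mul_assoc, hM2, mul_zero]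
      have h5 : M * (Y * M) = M * Y * M := (mul_assoc M Y M).symm
      simp only [mul_add, add_mul, mul_sub, sub_mul, smul_mul_assoc, mul_smul_comm, one_mul,
        mul_one, smul_add, smul_sub, h3, h4, h5]
      module
    rw [e1, e2]
    exact g.add_mem (g.add_mem hY (g.smul_mem _ hD1)) (g.smul_mem _ hD2)
  | tor h hh t ht a b _ ih =>
    intro X hX
    have hY := ih X hX
    set Y := a * X * b with hYd
    have e1 : ∀ A B : End K V, A * a * X * (b * B) = A * Y * B := fun A B => by
      rw [hYd]
      simp only [mul_assoc]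
    have hD1 := hB.br h hh.1 Y hY
    have hD2 := hB.br h hh.1 _ hD1
    have e2 : (((1 / 2 : K) • 1 + h) + t • ((1 / 2 : K) • 1 - h)) * Y *
        (((1 / 2 : K) • 1 + h) + t⁻¹ • ((1 / 2 : K) • 1 - h)) =
        Y + ((t⁻¹ - 1) / 2 - (t - 1) / 2) • (h * Y - Y * h) +
          ((t⁻¹ - 1) / 2 + (t - 1) / 2) • (h * (h * Y - Y * h) - (h * Y - Y * h) * h) := by
      have h3 : h * (h * Y) = (1 / 4 : K) • Y := by
        rw [← mul_assoc, hh.2.1, smul_mul_assoc, one_mul]
      have h4 : Y * h * h = (1 / 4 : K) • Y := by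
        rw [mul_assoc, hh.2.1, mul_smul_comm, mul_one]
      have h5 : h * (Y * h) = h * Y * h := (mul_assoc h Y h).symm
      simp only [mul_add, add_mul, mul_sub, sub_mul, smul_mul_assoc, mul_smul_comm, one_mul,
        mul_one, smul_add, smul_sub, h3, h4, h5]
      match_scalars <;> field_simp <;> ring
    rw [e1, e2]
    exact g.add_mem (g.add_mem hY (g.smul_mem _ hD1)) (g.smul_mem _ hD2)

theorem rankOne_conj {A B R : End K V} (hBA : B * A = 1) (hR : RankOne R) :
    RankOne (A * R * B) := by
  obtain ⟨x, φ, hx, hφ, rfl⟩ := hR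
  refine ⟨A x, φ ∘ₗ B, ?_, ?_, ?_⟩
  · intro h0
    apply hx
    have h1 := congrArg B h0
    rw [map_zero, ← Module.End.mul_apply, hBA, Module.End.one_apply] at h1
    exact h1
  · intro h0
    apply hφ
    ext v
    have h1 := LinearMap.congr_fun h0 (A v)
    rw [LinearMap.comp_apply, ← Module.End.mul_apply, hBA, Module.End.one_apply] at h1
    exact h1
  · ext v
    simp [Module.End.mul_apply]

theorem grp : GrpStmt.{u, v, w} := by
  intro K V ι _ _ _ _ _ ψ e σ g hB a b hab
  have hba := gp_inv hab
  have h1 := gp_inverse hab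
  have h2 := gp_inverse hba
  refine ⟨h1, h2, gp_comm hB hab, gp_comm hB hba, gp_lie hB hab, ?_, hba, gp_mul hab⟩
  intro M hM
  refine ⟨gp_lie hB hab M hM.1, ?_, fun i => ?_⟩
  · have : a * M * b * (a * M * b) = a * M * (b * a) * M * b := by simp only [mul_assoc]
    rw [this, h2, mul_one, mul_assoc a M M, hM.2.1, mul_zero, zero_mul]
  · have : a * M * b * e i = a * (M * e i) * b := by
      rw [mul_assoc, gp_comm hB hba i]
      simp only [mul_assoc]
    rw [this]
    exact rankOne_conj h2 (hM.2.2 i)

end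

end Pool.Agent.MT4.H18
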